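import Pool.Agent.U424.DQ.StmW

/-!
# Weak approximation for diagonal quadrics with a rational point (project DQW)
-/

set_option autoImplicit false

namespace Pool.Agent.U319.DQ

open Finset Pool.Agent.N718.DC Pool.Agent.U424.DQ

/-- for every prime `p` of `T` there is a rational number which is close to `1` at `p` and small at
the other primes of `T` -/
lemma idem (T : Finset Nat.Primes) (n : ℕ) (hn : 1 ≤ n) (p : Nat.Primes) :
    ∃ e : ℚ, ‖(e : ℚ_[(p : ℕ)]) - 1‖ ≤ (1 / 2) ^ n ∧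
      ∀ q ∈ T, q ≠ p → ‖(e : ℚ_[(q : ℕ)])‖ ≤ (1 / 2) ^ n := by
  classical
  obtain ⟨z, hz⟩ : ∃ z : ℚ, z = (∏ q ∈ T.erase p, ((q : ℕ) : ℚ)) / (p : ℕ) := ⟨_, rfl⟩
  have hunit : ∀ q q' : Nat.Primes, q ≠ q' → ‖(((q' : ℕ) : ℚ_[(q : ℕ)]))‖ = 1 := by
    intro q q' hqq
    rw [Padic.norm_natCast_eq_one_iff]
    refine (Nat.coprime_primes q.2 q'.2).2 ?_
    intro h
    exact hqq (Subtype.ext h)
  have hhalf : ∀ q : Nat.Primes, (((q : ℕ) : ℝ))⁻¹ ≤ 1 / 2 := by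
    intro q
    rw [one_div]
    apply inv_anti₀ (by norm_num)
    exact_mod_cast q.2.two_le
  have hzp : ‖(z : ℚ_[(p : ℕ)])‖ = ((p : ℕ) : ℝ) := by
    rw [hz]
    push_cast
    rw [norm_div, Padic.norm_p, div_inv_eq_mul, norm_prod]
    rw [prod_eq_one, one_mul]
    intro q hq
    exact hunit p q (ne_of_mem_erase hq).symm
  have hzq : ∀ q ∈ T, q ≠ p → ‖(z : ℚ_[(q : ℕ)])‖ ≤ 1 / 2 := by
    intro q hq hqp
    rw [hz]
    push_cast
    rw [norm_div, hunit q p hqp, div_one, norm_prod]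
    have hmem : q ∈ T.erase p := mem_erase.2 ⟨hqp, hq⟩
    rw [← mul_prod_erase _ _ hmem, Padic.norm_p]
    rw [prod_eq_one, mul_one]
    · exact hhalf q
    · intro q' hq'
      exact hunit q q' (ne_of_mem_erase hq').symm
  have h1z : ∀ q : Nat.Primes, ∀ w : ℚ_[(q : ℕ)], 1 < ‖w‖ → ‖w‖ ≤ ‖1 + w‖ := by
    intro q w hw
    have e : w = (1 + w) + (-1) := by ring
    have h := Padic.nonarchimedean (1 + w) (-1)
    rw [← e, norm_neg, norm_one] at h
    rcases le_max_iff.1 h with h' | h'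
    · exact h'
    · linarith
  have h2z : ∀ q : Nat.Primes, ∀ w : ℚ_[(q : ℕ)], ‖w‖ < 1 → 1 ≤ ‖1 + w‖ := by
    intro q w hw
    have e : (1 : ℚ_[(q : ℕ)]) = (1 + w) + (-w) := by ring
    have h := Padic.nonarchimedean (1 + w) (-w)
    rw [← e, norm_neg, norm_one] at h
    rcases le_max_iff.1 h with h' | h'
    · exact h'
    · linarith
  refine ⟨z ^ n / (1 + z ^ n), ?_, ?_⟩
  · have hp2 : (2 : ℝ) ≤ ((p : ℕ) : ℝ) := by exact_mod_cast p.2.two_le
    have hw1 : (2 : ℝ) ^ n ≤ ‖((z : ℚ_[(p : ℕ)]) ^ n)‖ := by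
      rw [norm_pow, hzp]
      exact pow_le_pow_left₀ (by norm_num) hp2 n
    have hw2 : (1 : ℝ) < 2 ^ n := one_lt_pow₀ (by norm_num) (by omega)
    have hw3 := h1z p _ (hw2.trans_le hw1)
    have hne : (1 + (z : ℚ_[(p : ℕ)]) ^ n) ≠ 0 := by
      intro h0
      rw [h0, norm_zero] at hw3
      linarith
    have e : (((z ^ n / (1 + z ^ n) : ℚ)) : ℚ_[(p : ℕ)]) - 1 = -(1 + (z : ℚ_[(p : ℕ)]) ^ n)⁻¹ := by
      push_cast
      field_simp
      ring
    rw [e, norm_neg, norm_inv, one_div, inv_pow]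
    apply inv_anti₀ (by positivity)
    exact hw1.trans hw3
  · intro q hq hqp
    have h3 := hzq q hq hqp
    have hw1 : ‖((z : ℚ_[(q : ℕ)]) ^ n)‖ ≤ (1 / 2) ^ n := by
      rw [norm_pow]
      exact pow_le_pow_left₀ (norm_nonneg _) h3 n
    have hw2 : ((1 : ℝ) / 2) ^ n < 1 := pow_lt_one₀ (by norm_num) (by norm_num) (by omega)
    have hw3 := h2z q _ (hw1.trans_lt hw2)
    push_cast
    rw [norm_div]
    exact (div_le_self (norm_nonneg _) hw3).trans hw1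

/-- weak approximation for the rational numbers -/
lemma approx_Q (T : Finset Nat.Primes) (x : (p : Nat.Primes) → ℚ_[(p : ℕ)]) (δ : ℝ) (hδ : 0 < δ) :
    ∃ u : ℚ, ∀ p ∈ T, ‖(u : ℚ_[(p : ℕ)]) - x p‖ < δ := by
  classical
  have hr : ∀ p : Nat.Primes, ∃ r : ℚ, ‖x p - (r : ℚ_[(p : ℕ)])‖ < δ / 2 := fun p =>
    Padic.rat_dense (p : ℕ) (x p) (half_pos hδ)
  choose r hr using hr
  obtain ⟨R, hR⟩ : ∃ R : ℝ, R = (∑ p ∈ T, ∑ q ∈ T, ‖(r q : ℚ_[(p : ℕ)])‖) + 1 := ⟨_, rfl⟩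
  have hR0 : 0 < R := by
    rw [hR]
    have : 0 ≤ ∑ p ∈ T, ∑ q ∈ T, ‖(r q : ℚ_[(p : ℕ)])‖ :=
      sum_nonneg fun _ _ => sum_nonneg fun _ _ => norm_nonneg _
    linarith
  obtain ⟨n, hn⟩ := exists_pow_lt_of_lt_one (show (0 : ℝ) < δ / 2 / R by positivity)
    (show ((1 : ℝ) / 2) < 1 by norm_num)
  have he : ∀ p : Nat.Primes, ∃ e : ℚ, ‖(e : ℚ_[(p : ℕ)]) - 1‖ ≤ (1 / 2) ^ (n + 1) ∧
      ∀ q ∈ T, q ≠ p → ‖(e : ℚ_[(q : ℕ)])‖ ≤ (1 / 2) ^ (n + 1) := fun p => idem T (n + 1) (by omega) p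
  choose e he1 he2 using he
  refine ⟨∑ q ∈ T, r q * e q, fun p hp => ?_⟩
  have hpow : ((1 : ℝ) / 2) ^ (n + 1) ≤ (1 / 2) ^ n :=
    pow_le_pow_of_le_one (by norm_num) (by norm_num) (by omega)
  have e1 : (((∑ q ∈ T, r q * e q : ℚ)) : ℚ_[(p : ℕ)]) - x p =
      ((r p : ℚ_[(p : ℕ)]) - x p) + ((r p : ℚ_[(p : ℕ)]) * ((e p : ℚ_[(p : ℕ)]) - 1) +
        ∑ q ∈ T.erase p, (r q : ℚ_[(p : ℕ)]) * (e q : ℚ_[(p : ℕ)])) := by
    push_cast
    rw [← add_sum_erase T _ hp]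
    ring
  rw [e1]
  refine (norm_add_le _ _).trans_lt ?_
  have h1 : ‖(r p : ℚ_[(p : ℕ)]) - x p‖ < δ / 2 := by
    rw [norm_sub_rev]
    exact hr p
  have h2 : ‖(r p : ℚ_[(p : ℕ)]) * ((e p : ℚ_[(p : ℕ)]) - 1) +
        ∑ q ∈ T.erase p, (r q : ℚ_[(p : ℕ)]) * (e q : ℚ_[(p : ℕ)])‖ ≤ R * (1 / 2) ^ n := by
    refine (norm_add_le _ _).trans ?_
    have h3 : ‖∑ q ∈ T.erase p, (r q : ℚ_[(p : ℕ)]) * (e q : ℚ_[(p : ℕ)])‖ ≤
        ∑ q ∈ T.erase p, ‖(r q : ℚ_[(p : ℕ)])‖ * (1 / 2) ^ n := by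
      refine (norm_sum_le _ _).trans (sum_le_sum fun q hq => ?_)
      rw [norm_mul]
      exact mul_le_mul_of_nonneg_left ((he2 q p hp (ne_of_mem_erase hq).symm).trans hpow)
        (norm_nonneg _)
    have h4 : ‖(r p : ℚ_[(p : ℕ)]) * ((e p : ℚ_[(p : ℕ)]) - 1)‖ ≤
        ‖(r p : ℚ_[(p : ℕ)])‖ * (1 / 2) ^ n := by
      rw [norm_mul]
      exact mul_le_mul_of_nonneg_left ((he1 p).trans hpow) (norm_nonneg _)
    have h5 : ‖(r p : ℚ_[(p : ℕ)])‖ * (1 / 2) ^ n +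
        ∑ q ∈ T.erase p, ‖(r q : ℚ_[(p : ℕ)])‖ * (1 / 2) ^ n =
        (∑ q ∈ T, ‖(r q : ℚ_[(p : ℕ)])‖) * (1 / 2) ^ n := by
      rw [sum_mul, ← add_sum_erase T _ hp]
    have h6 : ∑ q ∈ T, ‖(r q : ℚ_[(p : ℕ)])‖ ≤ R := by
      have h7 : ∑ q ∈ T, ‖(r q : ℚ_[(p : ℕ)])‖ ≤ ∑ p ∈ T, ∑ q ∈ T, ‖(r q : ℚ_[(p : ℕ)])‖ :=
        single_le_sum (f := fun p : Nat.Primes => ∑ q ∈ T, ‖(r q : ℚ_[(p : ℕ)])‖)
          (fun _ _ => sum_nonneg fun _ _ => norm_nonneg _) hp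
      rw [hR]
      linarith
    calc _ ≤ ‖(r p : ℚ_[(p : ℕ)])‖ * (1 / 2) ^ n +
          ∑ q ∈ T.erase p, ‖(r q : ℚ_[(p : ℕ)])‖ * (1 / 2) ^ n := add_le_add h4 h3
      _ = (∑ q ∈ T, ‖(r q : ℚ_[(p : ℕ)])‖) * (1 / 2) ^ n := h5
      _ ≤ R * (1 / 2) ^ n := mul_le_mul_of_nonneg_right h6 (by positivity)
  have h8 : R * (1 / 2) ^ n < δ / 2 := by
    rw [lt_div_iff₀ hR0] at hn
    linarith
  linarith

/-- weak approximation for the rational numbers, with the real place -/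
lemma approx (T : Finset Nat.Primes) (x : (p : Nat.Primes) → ℚ_[(p : ℕ)]) (y δ : ℝ)
    (hδ : 0 < δ) :
    ∃ u : ℚ, (∀ p ∈ T, ‖(u : ℚ_[(p : ℕ)]) - x p‖ < δ) ∧ |(u : ℝ) - y| < δ := by
  obtain ⟨u, hu⟩ := approx_Q T x δ hδ
  obtain ⟨n, hn⟩ := exists_pow_lt_of_lt_one hδ (show ((1 : ℝ) / 2) < 1 by norm_num)
  set P : ℕ := ∏ p ∈ T, (p : ℕ) with hP
  have hP0 : 0 < P := Finset.prod_pos fun p _ => p.2.pos
  set M : ℕ := P ^ n with hM
  have hM0 : 0 < M := pow_pos hP0 n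
  obtain ⟨k, hk⟩ := exists_nat_gt ((M : ℝ) / δ)
  set b : ℕ := 1 + P * k with hb
  have hb0 : 0 < b := by omega
  have hbM : (M : ℝ) / δ < b := by
    refine hk.trans_le ?_
    have h1 : k ≤ b := by
      have := Nat.le_mul_of_pos_left k hP0
      omega
    exact_mod_cast h1
  set w : ℝ := (y - u) * b / M with hw
  refine ⟨u + (M : ℚ) * (⌊w⌋ : ℚ) / b, ?_, ?_⟩
  · intro p hp
    have hbn : ‖(b : ℚ_[(p : ℕ)])‖ = 1 := by
      rw [Padic.norm_natCast_eq_one_iff]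
      have hdvd : (p : ℕ) ∣ P := Finset.dvd_prod_of_mem _ hp
      have h2 : ¬ (p : ℕ) ∣ b := by
        intro hd
        have h3 : (p : ℕ) ∣ 1 := (Nat.dvd_add_left (hdvd.mul_right k)).1 hd
        exact p.2.one_lt.ne' (Nat.dvd_one.1 h3)
      exact (p.2.coprime_iff_not_dvd.2 h2)
    have hMn : ‖(M : ℚ_[(p : ℕ)])‖ < δ := by
      have hdvd : (p : ℕ) ∣ P := Finset.dvd_prod_of_mem _ hp
      have h1 : ‖(P : ℚ_[(p : ℕ)])‖ ≤ 1 / 2 := by
        obtain ⟨q, hq⟩ := hdvd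
        rw [hq, Nat.cast_mul, norm_mul, Padic.norm_p]
        have h3 : ‖(q : ℚ_[(p : ℕ)])‖ ≤ 1 := by exact_mod_cast Padic.norm_int_le_one (q : ℤ)
        have h4 : (((p : ℕ) : ℝ))⁻¹ ≤ 1 / 2 := by
          rw [one_div]
          apply inv_anti₀ (by norm_num)
          exact_mod_cast p.2.two_le
        have h5 : (0 : ℝ) ≤ ‖(q : ℚ_[(p : ℕ)])‖ := norm_nonneg _
        nlinarith [show (0 : ℝ) ≤ (((p : ℕ) : ℝ))⁻¹ by positivity]
      rw [hM, Nat.cast_pow, norm_pow]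
      exact lt_of_le_of_lt (pow_le_pow_left₀ (norm_nonneg _) h1 n) hn
    have hr : ‖((M : ℚ_[(p : ℕ)]) * ((⌊w⌋ : ℤ) : ℚ_[(p : ℕ)]) / b)‖ < δ := by
      rw [norm_div, norm_mul, hbn, div_one]
      have h3 : ‖((⌊w⌋ : ℤ) : ℚ_[(p : ℕ)])‖ ≤ 1 := Padic.norm_int_le_one _
      exact lt_of_le_of_lt (mul_le_of_le_one_right (norm_nonneg _) h3) hMn
    have e : (((u + (M : ℚ) * (⌊w⌋ : ℚ) / b : ℚ)) : ℚ_[(p : ℕ)]) - x p =
        ((u : ℚ_[(p : ℕ)]) - x p) + ((M : ℚ_[(p : ℕ)]) * ((⌊w⌋ : ℤ) : ℚ_[(p : ℕ)]) / b) := by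
      push_cast
      ring
    rw [e]
    exact lt_of_le_of_lt (Padic.nonarchimedean _ _) (max_lt (hu p hp) hr)
  · have hbR : (0 : ℝ) < b := by exact_mod_cast hb0
    have hMR : (0 : ℝ) < M := by exact_mod_cast hM0
    have h1 : ((u + (M : ℚ) * (⌊w⌋ : ℚ) / b : ℚ) : ℝ) - y = (⌊w⌋ - w) * (M / b) := by
      rw [hw]
      push_cast
      field_simp
      ring
    rw [h1, abs_mul, abs_of_pos (div_pos hMR hbR)]
    have h2 : |(⌊w⌋ : ℝ) - w| ≤ 1 := by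
      rw [abs_sub_comm, abs_of_nonneg (sub_nonneg.2 (Int.floor_le w))]
      linarith [Int.lt_floor_add_one w]
    have h3 : (M : ℝ) / b < δ := by
      rw [div_lt_iff₀ hbR]
      rw [div_lt_iff₀ hδ] at hbM
      linarith
    calc |(⌊w⌋ : ℝ) - w| * (M / b) ≤ 1 * (M / b) :=
          mul_le_mul_of_nonneg_right h2 (by positivity)
      _ < δ := by rw [one_mul]; exact h3

/-- the second point of the quadric on the line through `P` with the direction `d` -/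
def ph {K : Type} [Field K] {m : ℕ} (A P d : Fin m → K) : Fin m → K := fun j =>
  (∑ l, A l * d l ^ 2) * P j - 2 * (∑ l, A l * P l * d l) * d j

lemma ph_on {K : Type} [Field K] {m : ℕ} (A P d : Fin m → K) (hP : ∑ l, A l * P l ^ 2 = 0) :
    ∑ l, A l * ph A P d l ^ 2 = 0 := by
  unfold ph
  obtain ⟨q, hq⟩ : ∃ q, q = ∑ l, A l * d l ^ 2 := ⟨_, rfl⟩
  obtain ⟨b, hb⟩ : ∃ b, b = ∑ l, A l * P l * d l := ⟨_, rfl⟩
  rw [← hq, ← hb]
  have h : ∀ l, A l * (q * P l - 2 * b * d l) ^ 2 =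
      q ^ 2 * (A l * P l ^ 2) - 4 * q * b * (A l * P l * d l) + 4 * b ^ 2 * (A l * d l ^ 2) := by
    intro l
    ring
  rw [sum_congr rfl fun l _ => h l, sum_add_distrib, sum_sub_distrib, ← mul_sum, ← mul_sum,
    ← mul_sum, hP, ← hb, ← hq]
  ring

/-- vectors with two entries -/
def tw {K : Type} [Field K] {m : ℕ} (i j : Fin m) (x y : K) : Fin m → K := fun l =>
  if l = i then x else if l = j then y else 0

lemma two {K : Type} [Field K] {m : ℕ} (f : Fin m → K) (i j : Fin m) (hij : i ≠ j) (x y : K) :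
    ∑ l, f l * tw i j x y l = f i * x + f j * y := by
  unfold tw
  rw [Fintype.sum_eq_add i j hij]
  · rw [if_pos rfl, if_neg hij.symm, if_pos rfl]
  · intro l hl
    rw [if_neg hl.1, if_neg hl.2, mul_zero]

lemma two2 {K : Type} [Field K] {m : ℕ} (f : Fin m → K) (i j : Fin m) (hij : i ≠ j) (x y : K) :
    ∑ l, f l * tw i j x y l ^ 2 = f i * x ^ 2 + f j * y ^ 2 := by
  unfold tw
  rw [Fintype.sum_eq_add i j hij]
  · rw [if_pos rfl, if_neg hij.symm, if_pos rfl]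
  · intro l hl
    rw [if_neg hl.1, if_neg hl.2]
    ring

lemma exists_pair {K : Type} [Field K] (h2 : (2 : K) ≠ 0) {m : ℕ} (hm : 3 ≤ m) (a : Fin m → K)
    (k : Fin m) (hk : a k ≠ 0) : ∃ i j, i ≠ j ∧ a i + a j ≠ 0 := by
  by_contra hcon
  push Not at hcon
  have hc : 1 < (univ.erase k : Finset (Fin m)).card := by
    rw [card_erase_of_mem (mem_univ _), card_univ, Fintype.card_fin]
    omega
  obtain ⟨i, hi, j, hj, hij⟩ := Finset.one_lt_card.1 hc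
  have hik : i ≠ k := (mem_erase.1 hi).1
  have hjk : j ≠ k := (mem_erase.1 hj).1
  have e1 := hcon i k hik
  have e2 := hcon j k hjk
  have e3 := hcon i j hij
  have e4 : 2 * a k = 0 := by linear_combination e1 + e2 - e3
  rcases mul_eq_zero.1 e4 with h | h
  · exact h2 h
  · exact hk h

/-- every point of the quadric is approximated by second points -/
lemma exists_dir {K : Type} [NontriviallyNormedField K] (h2 : (2 : K) ≠ 0) {m : ℕ} (hm : 3 ≤ m)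
    (A P Z : Fin m → K) (hA : ∀ l, A l ≠ 0) (hP0 : P ≠ 0) (_hP : ∑ l, A l * P l ^ 2 = 0)
    (hZ0 : Z ≠ 0) (hZ : ∑ l, A l * Z l ^ 2 = 0) (ε : ℝ) (hε : 0 < ε) :
    ∃ (D : Fin m → K) (l : K), l ≠ 0 ∧ ∀ j, ‖Z j - l * ph A P D j‖ < ε := by
  by_cases hb : ∑ l, A l * P l * Z l = 0
  swap
  · have hb2 : -(2 * ∑ l, A l * P l * Z l) ≠ 0 := neg_ne_zero.2 (mul_ne_zero h2 hb)
    refine ⟨Z, (-(2 * ∑ l, A l * P l * Z l))⁻¹, inv_ne_zero hb2, ?_⟩
    intro j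
    have e : ph A P Z j = -(2 * ∑ l, A l * P l * Z l) * Z j := by
      unfold ph
      rw [hZ]
      ring
    rw [e, inv_mul_cancel_left₀ hb2, sub_self, norm_zero]
    exact hε
  by_cases hpr : ∀ i j, P i * Z j = P j * Z i
  · -- `Z` is a multiple of `P`
    obtain ⟨k, hk⟩ : ∃ k, P k ≠ 0 := by
      by_contra h
      push Not at h
      exact hP0 (funext h)
    have hZk : ∀ j, Z j = Z k / P k * P j := by
      intro j
      rw [div_mul_eq_mul_div, eq_div_iff hk]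
      linear_combination hpr k j
    have hm0 : Z k / P k ≠ 0 := by
      intro h0
      apply hZ0
      funext j
      rw [hZk j, h0, zero_mul]
      rfl
    obtain ⟨i, j, hij, hne⟩ := exists_pair h2 hm (fun l => A l * P l ^ 2) k
      (mul_ne_zero (hA k) (pow_ne_zero 2 hk))
    have hD1 : ∑ l, A l * P l * tw i j (A j * P j) (-(A i * P i)) l = 0 := by
      rw [two (fun l => A l * P l) i j hij]
      ring
    have hD2 : ∑ l, A l * tw i j (A j * P j) (-(A i * P i)) l ^ 2 =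
        A i * A j * (A i * P i ^ 2 + A j * P j ^ 2) := by
      rw [two2 A i j hij]
      ring
    have hq : A i * A j * (A i * P i ^ 2 + A j * P j ^ 2) ≠ 0 :=
      mul_ne_zero (mul_ne_zero (hA i) (hA j)) hne
    refine ⟨tw i j (A j * P j) (-(A i * P i)),
      (Z k / P k) / (A i * A j * (A i * P i ^ 2 + A j * P j ^ 2)), div_ne_zero hm0 hq, ?_⟩
    intro l
    have e : ph A P (tw i j (A j * P j) (-(A i * P i))) l =
        A i * A j * (A i * P i ^ 2 + A j * P j ^ 2) * P l := by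
      unfold ph
      rw [hD1, hD2]
      ring
    rw [e, ← mul_assoc, div_mul_cancel₀ _ hq, ← hZk l, sub_self, norm_zero]
    exact hε
  · push Not at hpr
    obtain ⟨i, j, hij0⟩ := hpr
    have hij : i ≠ j := by
      rintro rfl
      exact hij0 rfl
    obtain ⟨w, hw⟩ : ∃ w, w = tw i j (A j * Z j) (-(A i * Z i)) := ⟨_, rfl⟩
    have hw1 : ∑ l, A l * Z l * w l = 0 := by
      rw [hw, two (fun l => A l * Z l) i j hij]
      ring
    obtain ⟨c, hc⟩ : ∃ c, c = A i * A j * (P i * Z j - P j * Z i) := ⟨_, rfl⟩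
    have hc0 : c ≠ 0 := by
      rw [hc]
      exact mul_ne_zero (mul_ne_zero (hA i) (hA j)) (sub_ne_zero.2 hij0)
    have hw2 : ∑ l, A l * P l * w l = c := by
      rw [hw, two (fun l => A l * P l) i j hij, hc]
      ring
    obtain ⟨q, hq⟩ : ∃ q, q = ∑ l, A l * w l ^ 2 := ⟨_, rfl⟩
    obtain ⟨R, hR⟩ : ∃ R : ℝ, R = (∑ l, ‖q / (2 * c) * P l - w l‖) + 1 := ⟨_, rfl⟩
    have hR0 : 0 < R := by
      rw [hR]
      have : 0 ≤ ∑ l, ‖q / (2 * c) * P l - w l‖ := sum_nonneg fun _ _ => norm_nonneg _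
      linarith
    obtain ⟨s, hs0, hs⟩ := NormedField.exists_norm_lt K (div_pos hε hR0)
    have hsne : s ≠ 0 := norm_pos_iff.1 hs0
    have hl : -(2 * s * c) ≠ 0 := neg_ne_zero.2 (mul_ne_zero (mul_ne_zero h2 hsne) hc0)
    refine ⟨fun l => Z l + s * w l, (-(2 * s * c))⁻¹, inv_ne_zero hl, ?_⟩
    intro l
    have e1 : ∑ l, A l * (Z l + s * w l) ^ 2 = s ^ 2 * q := by
      have h : ∀ l, A l * (Z l + s * w l) ^ 2 =
          A l * Z l ^ 2 + 2 * s * (A l * Z l * w l) + s ^ 2 * (A l * w l ^ 2) := by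
        intro l
        ring
      rw [sum_congr rfl fun l _ => h l, sum_add_distrib, sum_add_distrib, ← mul_sum, ← mul_sum, hZ,
        hw1, ← hq]
      ring
    have e2 : ∑ l, A l * P l * (Z l + s * w l) = s * c := by
      have h : ∀ l, A l * P l * (Z l + s * w l) = A l * P l * Z l + s * (A l * P l * w l) := by
        intro l
        ring
      rw [sum_congr rfl fun l _ => h l, sum_add_distrib, ← mul_sum, hb, hw2]
      ring
    have e3 : ph A P (fun l => Z l + s * w l) l =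
        s ^ 2 * q * P l - 2 * (s * c) * (Z l + s * w l) := by
      unfold ph
      simp only []
      rw [e1, e2]
    have e4 : Z l - (-(2 * s * c))⁻¹ * ph A P (fun l => Z l + s * w l) l =
        s * (q / (2 * c) * P l - w l) := by
      rw [e3]
      field_simp
      ring
    rw [e4, norm_mul]
    have h5 : ‖q / (2 * c) * P l - w l‖ ≤ R := by
      have := single_le_sum (f := fun l => ‖q / (2 * c) * P l - w l‖)
        (fun _ _ => norm_nonneg _) (mem_univ l)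
      rw [hR]
      linarith
    calc ‖s‖ * ‖q / (2 * c) * P l - w l‖ ≤ ‖s‖ * R := by gcongr
      _ < ε / R * R := by gcongr
      _ = ε := div_mul_cancel₀ _ hR0.ne'

/-- the local statement -/
lemma local_ {K : Type} [NontriviallyNormedField K] (h2 : (2 : K) ≠ 0) {m : ℕ} (hm : 3 ≤ m)
    (A P Z : Fin m → K) (hA : ∀ l, A l ≠ 0) (hP0 : P ≠ 0) (hP : ∑ l, A l * P l ^ 2 = 0)
    (hZ : OnQ A Z) (ε : ℝ) (hε : 0 < ε) :
    ∃ (D : Fin m → K) (δ : ℝ), 0 < δ ∧ ∀ d : Fin m → K, (∀ j, ‖d j - D j‖ < δ) →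
      Near ε Z (ph A P d) ∧ ph A P d ≠ 0 := by
  have hZn : 0 < ‖Z‖ := norm_pos_iff.2 hZ.1
  obtain ⟨D, l, hl, hD⟩ := exists_dir h2 hm A P Z hA hP0 hP hZ.1 hZ.2
    (‖Z‖ * min ε (1 / 2) / 2) (by positivity)
  have hcont : Continuous (fun d : Fin m → K => fun j => l * ph A P d j) := by
    unfold ph
    fun_prop
  obtain ⟨δ, hδ, hball⟩ := Metric.continuousAt_iff.1 (hcont.continuousAt (x := D))
    (‖Z‖ * min ε (1 / 2) / 2) (by positivity)
  refine ⟨D, δ, hδ, fun d hd => ?_⟩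
  have h1 : dist d D < δ := by
    rw [dist_pi_lt_iff hδ]
    intro j
    rw [dist_eq_norm]
    exact hd j
  have h3 := hball h1
  rw [dist_pi_lt_iff (by positivity)] at h3
  have h4 : ∀ j, ‖Z j - l * ph A P d j‖ < ‖Z‖ * min ε (1 / 2) := by
    intro j
    have h5 := h3 j
    rw [dist_comm, dist_eq_norm] at h5
    have e : Z j - l * ph A P d j = (Z j - l * ph A P D j) + (l * ph A P D j - l * ph A P d j) := by
      ring
    rw [e]
    refine (norm_add_le _ _).trans_lt ?_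
    have h6 := hD j
    linarith
  refine ⟨⟨l, hl, fun j => (h4 j).le.trans ?_⟩, ?_⟩
  · exact mul_le_mul_of_nonneg_left (min_le_left _ _) hZn.le
  · intro h0
    have h5 : ‖Z‖ ≤ ‖Z‖ * (1 / 2) := by
      rw [pi_norm_le_iff_of_nonneg (by positivity)]
      intro j
      have h6 := (h4 j).le
      rw [h0] at h6
      simp only [Pi.zero_apply, mul_zero, sub_zero] at h6
      exact h6.trans (mul_le_mul_of_nonneg_left (min_le_right _ _) hZn.le)
    linarith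

theorem cwam_ : S_CWAM := by
  intro m hm A hA hsol S Z ZR hZ hZR ε hε
  obtain ⟨P, hP0, hPq⟩ := hsol
  have key : ∀ (K : Type) [NontriviallyNormedField K] [CharZero K] (Y : Fin m → K),
      OnQ (fun l => (A l : K)) Y → ∃ (D : Fin m → K) (δ : ℝ), 0 < δ ∧ ∀ d : Fin m → K,
        (∀ j, ‖d j - D j‖ < δ) →
        Near ε Y (ph (fun l => (A l : K)) (fun j => (P j : K)) d) ∧
          ph (fun l => (A l : K)) (fun j => (P j : K)) d ≠ 0 := by
    intro K _ _ Y hY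
    refine local_ two_ne_zero hm (fun l => (A l : K)) (fun j => (P j : K)) Y
      (fun l => by exact_mod_cast hA l) ?_ ?_ hY ε hε
    · intro h
      apply hP0
      funext j
      have := congrFun h j
      simp only [Pi.zero_apply] at this ⊢
      exact_mod_cast this
    · have := congrArg (fun x : ℚ => (x : K)) hPq
      push_cast at this
      exact this
  have hcast : ∀ (K : Type) [Field K] [CharZero K] (d : Fin m → ℚ) (j : Fin m),
      ((ph A P d j : ℚ) : K) =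
        ph (fun l => (A l : K)) (fun j => (P j : K)) (fun j => (d j : K)) j := by
    intro K _ _ d j
    unfold ph
    push_cast
    ring
  have hloc : ∀ p : Nat.Primes, ∃ (D : Fin m → ℚ_[(p : ℕ)]) (δ : ℝ), 0 < δ ∧
      (p ∈ S → ∀ d : Fin m → ℚ_[(p : ℕ)], (∀ j, ‖d j - D j‖ < δ) →
        Near ε (Z p) (ph (fun l => (A l : ℚ_[(p : ℕ)])) (fun j => (P j : ℚ_[(p : ℕ)])) d)) := by
    intro p
    by_cases hp : p ∈ S
    · obtain ⟨D, δ, hδ, h⟩ := key ℚ_[(p : ℕ)] (Z p) (hZ p hp)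
      exact ⟨D, δ, hδ, fun _ d hd => (h d hd).1⟩
    · exact ⟨0, 1, one_pos, fun h => absurd h hp⟩
  choose D δ hδ hD using hloc
  obtain ⟨DR, δR, hδR, hDR⟩ := key ℝ ZR hZR
  obtain ⟨t, ht⟩ : ∃ t : ℝ, t = (∑ p ∈ S, (δ p)⁻¹ + δR⁻¹)⁻¹ := ⟨_, rfl⟩
  have hsum : 0 ≤ ∑ p ∈ S, (δ p)⁻¹ := sum_nonneg fun p _ => inv_nonneg.2 (hδ p).le
  have hRi : 0 < δR⁻¹ := inv_pos.2 hδR
  have ht0 : 0 < t := by rw [ht]; positivity
  have htp : ∀ p ∈ S, t ≤ δ p := by
    intro p hp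
    rw [ht, inv_le_comm₀ (by positivity) (hδ p)]
    have := single_le_sum (f := fun p => (δ p)⁻¹) (fun p _ => inv_nonneg.2 (hδ p).le) hp
    linarith
  have htR : t ≤ δR := by
    rw [ht, inv_le_comm₀ (by positivity) hδR]
    linarith
  have happ : ∀ j : Fin m, ∃ d : ℚ, (∀ p ∈ S, ‖(d : ℚ_[(p : ℕ)]) - D p j‖ < t) ∧
      |(d : ℝ) - DR j| < t := fun j =>
    approx S (fun p => D p j) (DR j) t ht0
  choose d hd1 hd2 using happ
  have hR := hDR (fun j => (d j : ℝ)) fun j => by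
    rw [Real.norm_eq_abs]
    exact (hd2 j).trans_le htR
  refine ⟨ph A P d, ⟨?_, ph_on A P d hPq⟩, ?_, ?_⟩
  · intro h0
    apply hR.2
    funext j
    rw [← hcast ℝ d j, h0]
    simp
  · intro p hp
    have h1 := hD p hp (fun j => (d j : ℚ_[(p : ℕ)])) fun j => (hd1 j p hp).trans_le (htp p hp)
    have h2 : (fun j => ((ph A P d j : ℚ) : ℚ_[(p : ℕ)])) =
        ph (fun l => (A l : ℚ_[(p : ℕ)])) (fun j => (P j : ℚ_[(p : ℕ)]))
          (fun j => (d j : ℚ_[(p : ℕ)])) := funext fun j => hcast ℚ_[(p : ℕ)] d j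
    rw [h2]
    exact h1
  · have h2 : (fun j => ((ph A P d j : ℚ) : ℝ)) =
        ph (fun l => (A l : ℝ)) (fun j => (P j : ℝ)) (fun j => (d j : ℝ)) :=
      funext fun j => hcast ℝ d j
    rw [h2]
    exact hR.1

end Pool.Agent.U319.DQ

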